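import Pool.Agent.X115.HS.Stm

/-! Part ZV of project HS (MP_e4c1d4_an). -/

set_option autoImplicit false

namespace Pool.Agent.X211.HSZ

open MeasureTheory Set Filter Topology Real Pool.Agent.X115.HS

theorem exp_int {n : ℕ} {b : ℝ} (hb : 0 < b) :
    0 < ∫ x : X n, Real.exp (-b * ‖x‖ ^ 2) ∧ Integrable fun x : X n => Real.exp (-b * ‖x‖ ^ 2) := by
  have h : 0 < ∫ x : X n, Real.exp (-b * ‖x‖ ^ 2) := by
    rw [GaussianFourier.integral_rexp_neg_mul_sq_norm hb]
    positivity
  refine ⟨h, ?_⟩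
  by_contra hcon
  rw [integral_undef hcon] at h
  exact lt_irrefl _ h

theorem gk_eq {n : ℕ} (s : ℝ) (x : X n) :
    gk s x = (4 * π * s) ^ (-((n : ℝ) / 2)) * Real.exp (-(1 / (4 * s)) * ‖x‖ ^ 2) := by
  unfold gk
  congr 2
  ring

theorem gk_int {n : ℕ} {s : ℝ} (hs : 0 < s) :
    0 < ∫ x : X n, gk s x ∧ Integrable fun x : X n => gk s x := by
  have hb : 0 < 1 / (4 * s) := by positivity
  obtain ⟨h1, h2⟩ := exp_int (n := n) hb
  simp only [gk_eq]
  refine ⟨?_, h2.const_mul _⟩
  rw [integral_const_mul]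
  positivity

theorem scale {n : ℕ} {c : ℝ} (hc : 0 < c) (x : X n) :
    gk (c ^ 2) (c • x) =
      ((4 * π * c ^ 2) ^ (-((n : ℝ) / 2)) / (4 * π * 1) ^ (-((n : ℝ) / 2))) * gk 1 x := by
  unfold gk
  have h1 : -‖c • x‖ ^ 2 / (4 * c ^ 2) = -‖x‖ ^ 2 / (4 * 1) := by
    rw [norm_smul, mul_pow, Real.norm_eq_abs, sq_abs]
    field_simp
  have h2 : (4 * π * 1) ^ (-((n : ℝ) / 2)) ≠ 0 := by positivity
  rw [h1]
  field_simp

theorem t_ZV : S_ZV := by
  intro n f x0 M hf hM h0
  have key : ∀ c : ℝ, 0 < c → ∫ y : X n, f (c • y + x0) * gk 1 y = 0 := by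
    intro c hc
    have h1 : ∫ x : X n, f (x + x0) * gk (c ^ 2) x = 0 := by
      have := integral_add_right_eq_self (μ := (volume : Measure (X n)))
        (fun x => f x * gk (c ^ 2) (x - x0)) x0
      simp only [add_sub_cancel_right] at this
      rw [this]
      exact h0 _ (by positivity)
    have h2 := Measure.integral_comp_smul (volume : Measure (X n))
      (fun x => f (x + x0) * gk (c ^ 2) x) c
    rw [h1, smul_zero] at h2
    simp only [scale hc] at h2
    set K := (4 * π * c ^ 2) ^ (-((n : ℝ) / 2)) / (4 * π * 1) ^ (-((n : ℝ) / 2)) with hK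
    have hK0 : K ≠ 0 := by positivity
    have h3 : ∫ y : X n, f (c • y + x0) * (K * gk 1 y) = K * ∫ y : X n, f (c • y + x0) * gk 1 y := by
      rw [← integral_const_mul]
      congr 1
      ext y
      ring
    rw [h3] at h2
    exact (mul_eq_zero.1 h2).resolve_left hK0
  obtain ⟨hpos, hint⟩ := gk_int (n := n) one_pos
  have hlim : Tendsto (fun k : ℕ => ∫ y : X n, f ((1 / ((k : ℝ) + 1)) • y + x0) * gk 1 y) atTop
      (𝓝 (∫ y : X n, f x0 * gk 1 y)) := by
    refine tendsto_integral_of_dominated_convergence (fun y => M * gk 1 y) ?_ (hint.const_mul M) ?_ ?_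
    · intro k
      have hc : Continuous fun y : X n => f ((1 / ((k : ℝ) + 1)) • y + x0) := by fun_prop
      exact hc.aestronglyMeasurable.mul hint.aestronglyMeasurable
    · intro k
      refine Eventually.of_forall fun y => ?_
      have hg : 0 ≤ gk 1 y := by
        unfold gk
        positivity
      rw [Real.norm_eq_abs, abs_mul, abs_of_nonneg hg]
      exact mul_le_mul_of_nonneg_right (hM _) hg
    · refine Eventually.of_forall fun y => ?_
      have h1 : Tendsto (fun k : ℕ => (1 / ((k : ℝ) + 1)) • y + x0) atTop (𝓝 ((0 : ℝ) • y + x0)) :=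
        (tendsto_one_div_add_atTop_nhds_zero_nat.smul_const y).add_const x0
      rw [zero_smul, zero_add] at h1
      exact ((hf.tendsto x0).comp h1).mul_const _
  have h1 : ∫ y : X n, f x0 * gk 1 y = 0 := by
    refine tendsto_nhds_unique hlim ?_
    have : (fun k : ℕ => ∫ y : X n, f ((1 / ((k : ℝ) + 1)) • y + x0) * gk 1 y) = fun _ => 0 := by
      funext k
      exact key _ (by positivity)
    rw [this]
    exact tendsto_const_nhds
  rw [integral_const_mul] at h1
  exact (mul_eq_zero.1 h1).resolve_right hpos.ne'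

end Pool.Agent.X211.HSZ
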